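import Pool.Agent.KS6_23.ML.ALL2

set_option autoImplicit false

/-!
# Local connectivity of the Mandelbrot set at the points of infinitely many limbs
-/

open Complex Set Filter Metric Topology N62a1eb23

namespace Pool.Agent.Results.MP_c6f924_an.NestedLimbs

/-- the quadratic polynomial `z ^ 2 + c` -/
def f (c z : ℂ) : ℂ := z ^ 2 + c

/-- the distance of a real number to the next integer -/
noncomputable def dZ (t : ℝ) : ℝ := |t - round t|

/-- `c₁` is a parameter for which `z₁` has the period `n` and the multiplier `exp (2 π i t)`, and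
`B` is a part of `M` which is cut off by `c₁`: it is open and closed in `M \ {c₁}`, and it does not
contain the parameters near `c₁` for which the cycle near `z₁` is attracting -/
structure Limb (n : ℕ) (t : ℝ) (c₁ z₁ : ℂ) (B : Set ℂ) : Prop where
  fix : (f c₁)^[n] z₁ = z₁
  mlt : deriv ((f c₁)^[n]) z₁ = exp (2 * Real.pi * I * t)
  sub : B ⊆ mandelbrotSet \ {c₁}
  opn : ∃ O : Set ℂ, IsOpen O ∧ B = O ∩ (mandelbrotSet \ {c₁})
  cls : ∃ K : Set ℂ, IsClosed K ∧ B = K ∩ (mandelbrotSet \ {c₁})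
  att : ∃ δ : ℝ, 0 < δ ∧ ∀ c z : ℂ, ‖c - c₁‖ < δ → ‖z - z₁‖ < δ → (f c)^[n] z = z →
    ‖deriv ((f c)^[n]) z‖ < 1 → c ∉ B

/-- the parameters with an attracting cycle -/
def Hyp : Set ℂ := {c : ℂ | ∃ (m : ℕ) (z : ℂ), 1 ≤ m ∧ (f c)^[m] z = z ∧
  ‖deriv ((f c)^[m]) z‖ < 1}

/-- `M` has arbitrarily small connected neighbourhoods of `c₀` -/
def ConnIm (c₀ : ℂ) : Prop :=
  ∀ U ∈ 𝓝 c₀, ∃ V ⊆ U ∩ mandelbrotSet, IsConnected V ∧ V ∈ 𝓝[mandelbrotSet] c₀

/-- A tower of nested satellite limbs. The limb `B k` has the period `n k = q 0 ⋯ q (k - 1)`, the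
rotation number `p k / q k` and the root `c k`, it is the largest limb with this root, and the
limbs are nested. The set `W k` is a connected set of parameters with attracting cycles of the period
`n (k + 1)`, it lies in `B k`, and the roots `c k` and `c (k + 1)` are limits of points of `W k`:
so `c (k + 1)` is on the boundary of the satellite component which is attached at `c k`. The first
root is the parameter with a fixed point of the multiplier `exp (2 π i p 0 / q 0)`. -/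
structure Tower (p : ℕ → ℤ) (q : ℕ → ℕ) (n : ℕ → ℕ) (c z : ℕ → ℂ) (B W : ℕ → Set ℂ) : Prop where
  one : n 0 = 1
  succ : ∀ k, n (k + 1) = n k * q k
  root : c 0 = exp (2 * Real.pi * I * ((p 0 / q 0 : ℝ) : ℂ)) / 2 -
    (exp (2 * Real.pi * I * ((p 0 / q 0 : ℝ) : ℂ)) / 2) ^ 2
  limb : ∀ k, Limb (n k) (p k / q k) (c k) (z k) (B k)
  max : ∀ k B', Limb (n k) (p k / q k) (c k) (z k) B' → B' ⊆ B k
  nest : ∀ k, closure (B (k + 1)) ⊆ B k
  conn : ∀ k, IsConnected (W k)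
  sub : ∀ k, W k ⊆ B k
  att : ∀ k, ∀ c ∈ W k, ∃ z, (f c)^[n (k + 1)] z = z ∧ ‖deriv ((f c)^[n (k + 1)]) z‖ < 1
  bot : ∀ k, c k ∈ closure (W k)
  top : ∀ k, c (k + 1) ∈ closure (W k)

theorem conv {n : ℕ} {t : ℝ} {c₁ z₁ : ℂ} {B : Set ℂ} (h : Limb n t c₁ z₁ B) :
    KS6_23.ML.Limb n t c₁ z₁ B :=
  { fix := h.fix, mlt := h.mlt, sub := h.sub, opn := h.opn, cls := h.cls, att := h.att }

theorem conv' {n : ℕ} {t : ℝ} {c₁ z₁ : ℂ} {B : Set ℂ} (h : KS6_23.ML.Limb n t c₁ z₁ B) :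
    Limb n t c₁ z₁ B :=
  { fix := h.fix, mlt := h.mlt, sub := h.sub, opn := h.opn, cls := h.cls, att := h.att }

theorem result : ∃ C : ℝ, 0 < C ∧
    (∀ c₀ : ℂ, (∀ F : Set ℂ, F.Finite → ∃ (n q : ℕ) (p : ℤ) (c₁ z₁ : ℂ) (B : Set ℂ), c₁ ∉ F ∧
      1 ≤ n ∧ 1 ≤ q ∧ IsCoprime p (q : ℤ) ∧ C * n ^ 2 ≤ q * dZ (p / q) ^ 2 ∧
      Limb n (p / q) c₁ z₁ B ∧ c₀ ∈ B) → ConnIm c₀ ∧ c₀ ∈ closure Hyp) ∧
    ∀ (p : ℕ → ℤ) (q : ℕ → ℕ), (∀ k, 2 ≤ q k) → (∀ k, IsCoprime (p k) (q k : ℤ)) →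
      ∃ (n : ℕ → ℕ) (c z : ℕ → ℂ) (B W : ℕ → Set ℂ), Tower p q n c z B W ∧
        (⋂ k, B k).Nonempty ∧
        ((∃ᶠ k in atTop, C * n k ^ 2 ≤ q k * dZ (p k / q k) ^ 2) →
          Tendsto (fun k => diam (B k)) atTop (𝓝 0) ∧
          ∃ c₀ : ℂ, (⋂ k, B k) = {c₀} ∧ ConnIm c₀ ∧ c₀ ∈ closure Hyp) := by
  obtain ⟨C₁, hC₁, h1⟩ := KS6_23.ML.ALL2.mlcr
  obtain ⟨C₂, hC₂, h2⟩ := KS6_23.ML.ALL2.tower
  refine ⟨max C₁ C₂, lt_max_of_lt_left hC₁, fun c₀ hinf => ?_, fun p q hq hpq => ?_⟩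
  · refine h1 c₀ fun F hF => ?_
    obtain ⟨n, q, p, c₁, z₁, B, hF1, hn, hq, hco, hbig, hL, hcB⟩ := hinf F hF
    refine ⟨n, q, p, c₁, z₁, B, hF1, hn, hq, hco, ?_, conv hL, hcB⟩
    exact (mul_le_mul_of_nonneg_right (le_max_left C₁ C₂) (by positivity)).trans hbig
  · obtain ⟨n, c, z, B, W, hT, hne, hlim⟩ := h2 p q hq hpq
    refine ⟨n, c, z, B, W, ?_, hne, fun hfr => hlim (hfr.mono fun k hk =>
      (mul_le_mul_of_nonneg_right (le_max_right C₁ C₂) (by positivity)).trans hk)⟩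
    exact
      { one := hT.one
        succ := hT.succ
        root := hT.root
        limb := fun k => conv' (hT.limb k)
        max := fun k B' hB' => hT.max k B' (conv hB')
        nest := hT.nest
        conn := fun k => ⟨closure_nonempty_iff.1 ⟨_, hT.bot k⟩, hT.conn k⟩
        sub := hT.sub
        att := hT.att
        bot := hT.bot
        top := hT.top }

end Pool.Agent.Results.MP_c6f924_an.NestedLimbs
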