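import Mathlib
import Pool.Prelude.Def_F_c31e40fa
import Pool.Agent.KS6_34.Lc

/-!
# The modulus of local connectivity and the recurrence of the critical orbit

Let `c₀` be a parameter of the Multibrot set `M_d` (`d = 2`: the Mandelbrot set) which satisfies the
Collet-Eckmann condition, and whose critical orbit `z_j = f^j (c₀)` is slowly recurrent: `|z_j|` is
at least `exp (- e j)` up to a constant, for every `e > 0`. We prove that the modulus of local
connectivity of `M_d` at `c₀` is controlled by the closest returns of the critical orbit to the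
critical point: there is `K` such that for all small `r`, if `|z_j| ≥ t` for all
`j ≤ K log (1 / r)` (`t ≤ 1`), then every point of `M_d` at distance at most `r` from `c₀` is joined to
`c₀` by a continuum in `M_d` which is contained in the disc of radius `K r / t ^ K` about `c₀`.

So at the parameters with a critical orbit which stays away from the critical point (semihyperbolic
parameters, in particular all Misiurewicz parameters, and uncountably many others) the Multibrot set
is linearly locally connected at `c₀`: the modulus is `C r`. If the recurrence is polynomial the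
modulus is `r (log (1 / r)) ^ C`, and it is always `r ^ (1 - ε)`. No Lyapunov exponent is assumed to
exist.

The method. (1) Distortion: the first `k` iterates are controlled on a disc of radius `s` about `c₀`,
in the dynamical plane and in the plane of parameters, as long as the sum of `P_j / |z_j|`, `j < k`, is
less than `κ / s`, where `P_j = |(f^j)' (c₀)|`; this has no exponential losses (`KS6_34.pass`). (2) At
the last such time `N (s)` the derivative is `1 / s` up to a power of the recurrence. (3) The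
displacement along the pieces of external rays at the levels below `T` is at most `C T ^ β` plus a
power of `r`, uniformly for all `c` near `c₀` (`Pool.Agent.N253.LS`, of an earlier run); for `T` equal
to a power of the recurrence this is much less than the size which the disc has at the time `N (s)`.
So two points of a parameter ray which are far away from each other in the disc of radius `R` about
`c₀` have a level of at least `d ^ (- N (R))` up to a power of the recurrence. (4) A ray which comes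
from outside into the disc of radius `r` has a level of at most `2 d ^ (- N (2 r))`, and cannot leave
the disc of radius `R` again if `N (2 r) - N (R)` is large enough.
-/

set_option autoImplicit false

open Filter Metric Topology

namespace Pool.Agent.Results.MP_c6f924_an.RecurrenceModulus

/-- The polynomial `z ^ d + c`. -/
def f (d : ℕ) (c : ℂ) : ℂ → ℂ := fun z => z ^ d + c

/-- The Collet-Eckmann parameters of the Multibrot set with a slowly recurrent critical orbit:
`|(f^n)' (c₀)| ≥ C lam ^ n` for some `lam > 1`, and `|f^n (c₀)| ≥ C_e exp (- e n)` for every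
`e > 0`. -/
def SlowCE (d : ℕ) (c₀ : ℂ) : Prop :=
  c₀ ∈ N62a1eb23.multibrotSet d ∧
  (∃ C lam : ℝ, 0 < C ∧ 1 < lam ∧ ∀ n : ℕ, C * lam ^ n ≤ ‖deriv ((f d c₀)^[n]) c₀‖) ∧
  ∀ e : ℝ, 0 < e → ∃ C : ℝ, 0 < C ∧ ∀ n : ℕ, C * Real.exp (-(e * n)) ≤ ‖(f d c₀)^[n] c₀‖

/-- Every point of `M` at distance at most `r` from `c₀` is joined to `c₀` by a continuum in `M` which
is contained in the disc of radius `R` about `c₀`. -/
def Joined (M : Set ℂ) (c₀ : ℂ) (r R : ℝ) : Prop :=
  ∀ c ∈ M, ‖c - c₀‖ ≤ r → ∃ S : Set ℂ, S ⊆ M ∧ IsCompact S ∧ IsConnected S ∧ c ∈ S ∧ c₀ ∈ S ∧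
    S ⊆ closedBall c₀ R

theorem slow {d : ℕ} (hd : 2 ≤ d) {c₀ : ℂ} (h : SlowCE d c₀) : Pool.Agent.N253.LS.Slow d c₀ := by
  obtain ⟨hM, ⟨C, lam, hC, hlam, H⟩, hrec⟩ := h
  refine ⟨⟨max 1 (1 / C), lam, ⟨hd, ?_, le_max_left _ _, hlam, ?_⟩⟩, ?_⟩
  · intro j
    have h1 := (Pool.Agent.H712R2.mem_multibrot_iff hd c₀).mp hM (j + 1)
    rw [Pool.Agent.Y298.SH.CD.P_succ_eq hd] at h1
    exact h1
  · intro n
    have h1 : C * lam ^ n ≤ Pool.Agent.Y298.SH.CD.Pd d c₀ n := H n
    have h2 : 1 / C ≤ max 1 (1 / C) := le_max_right _ _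
    have h3 : 0 < lam ^ n := pow_pos (by linarith) n
    have h4 : 0 ≤ Pool.Agent.Y298.SH.CD.Pd d c₀ n := Pool.Agent.Y298.SH.CD.Pd_nonneg _ _ _
    calc lam ^ n = 1 / C * (C * lam ^ n) := by field_simp
      _ ≤ max 1 (1 / C) * Pool.Agent.Y298.SH.CD.Pd d c₀ n := by gcongr
  · intro e he
    obtain ⟨C', hC', H'⟩ := hrec e he
    refine ⟨max 1 (1 / C'), le_max_left _ _, fun n => ?_⟩
    have h1 : C' * Real.exp (-(e * n)) ≤ ‖Pool.Agent.Y298.SH.CD.zz d c₀ n‖ := H' n
    have h2 : 1 / C' ≤ max 1 (1 / C') := le_max_right _ _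
    have h3 : Real.exp (e * n) * Real.exp (-(e * n)) = 1 := by
      rw [← Real.exp_add]; simp
    calc (1 : ℝ) = 1 / C' * Real.exp (e * n) * (C' * Real.exp (-(e * n))) := by
          have : 1 / C' * Real.exp (e * n) * (C' * Real.exp (-(e * n))) =
            Real.exp (e * n) * Real.exp (-(e * n)) := by field_simp
          rw [this, h3]
      _ ≤ max 1 (1 / C') * Real.exp (e * n) * ‖Pool.Agent.Y298.SH.CD.zz d c₀ n‖ := by gcongr

theorem Joined.mono {M : Set ℂ} {c₀ : ℂ} {r R R' : ℝ} (h : Joined M c₀ r R) (hR : R ≤ R') :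
    Joined M c₀ r R' := by
  intro c hc hcr
  obtain ⟨S, h1, h2, h3, h4, h5, h6⟩ := h c hc hcr
  exact ⟨S, h1, h2, h3, h4, h5, h6.trans (closedBall_subset_closedBall hR)⟩

/-- **The modulus of local connectivity at a slowly recurrent Collet-Eckmann parameter.** -/
theorem result (d : ℕ) (hd : 2 ≤ d) (c₀ : ℂ) (h : SlowCE d c₀) :
    -- the modulus in terms of the closest returns of the critical orbit
    (∃ (K : ℕ) (r₁ : ℝ), 0 < r₁ ∧ ∀ r t : ℝ, 0 < r → r ≤ r₁ → 0 < t → t ≤ 1 →
      (∀ j : ℕ, (j : ℝ) ≤ K * Real.log (1 / r) → t ≤ ‖(f d c₀)^[j] c₀‖) →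
        Joined (N62a1eb23.multibrotSet d) c₀ r (K * r / t ^ K)) ∧
    -- no recurrence
    (∀ t : ℝ, 0 < t → (∀ j : ℕ, t ≤ ‖(f d c₀)^[j] c₀‖) →
      ∃ C r₁ : ℝ, 0 < r₁ ∧ ∀ r : ℝ, 0 < r → r ≤ r₁ →
        Joined (N62a1eb23.multibrotSet d) c₀ r (C * r)) ∧
    -- polynomial recurrence
    (∀ a β : ℝ, 0 < a → 0 ≤ β → (∀ j : ℕ, a * ((j : ℝ) + 1) ^ (-β) ≤ ‖(f d c₀)^[j] c₀‖) →
      ∃ C r₁ : ℝ, 0 < r₁ ∧ ∀ r : ℝ, 0 < r → r ≤ r₁ →
        Joined (N62a1eb23.multibrotSet d) c₀ r (r * Real.log (1 / r) ^ C)) ∧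
    -- in all cases
    ∀ ε : ℝ, 0 < ε → ∃ r₁ : ℝ, 0 < r₁ ∧ ∀ r : ℝ, 0 < r → r ≤ r₁ →
      Joined (N62a1eb23.multibrotSet d) c₀ r (r ^ (1 - ε)) := by
  obtain ⟨β₀, hβ₀⟩ := Pool.Agent.H713R2.exists_beta (d := d) hd
  obtain ⟨K₀, HK⟩ := Pool.Agent.KS6_34.modulus hd (slow hd h) h.1
    (Pool.Agent.H713R2.exteriorMap_of_beta hβ₀)
  obtain ⟨K, hK⟩ : ∃ K : ℕ, K = max 1 K₀ := ⟨_, rfl⟩
  obtain ⟨r₁, hr₁, H⟩ := HK K (by rw [hK]; exact le_max_right _ _)
  have hK1 : 1 ≤ K := by rw [hK]; exact le_max_left _ _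
  have hKR : (1 : ℝ) ≤ K := by exact_mod_cast hK1
  have hK0 : (0 : ℝ) < K := by linarith
  have main : ∀ r t : ℝ, 0 < r → r ≤ r₁ → 0 < t → t ≤ 1 →
      (∀ j : ℕ, (j : ℝ) ≤ K * Real.log (1 / r) → t ≤ ‖(f d c₀)^[j] c₀‖) →
        Joined (N62a1eb23.multibrotSet d) c₀ r (K * r / t ^ K) :=
    fun r t hr hrr ht ht1 hrec => H r hr hrr t ht ht1 hrec
  refine ⟨⟨K, r₁, hr₁, main⟩, ?_, ?_, ?_⟩
  · -- no recurrence
    intro t ht hrec
    refine ⟨K / (min 1 t) ^ K, r₁, hr₁, fun r hr hrr => ?_⟩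
    have h1 := main r (min 1 t) hr hrr (by positivity) (min_le_left _ _)
      (fun j _ => (min_le_right _ _).trans (hrec j))
    refine h1.mono (le_of_eq ?_)
    ring
  · -- polynomial recurrence
    intro a β ha hβ hrec
    obtain ⟨b, hb⟩ : ∃ b : ℝ, b = min 1 a := ⟨_, rfl⟩
    have hb0 : 0 < b := by rw [hb]; positivity
    have hb1 : b ≤ 1 := by rw [hb]; exact min_le_left _ _
    have hba : b ≤ a := by rw [hb]; exact min_le_right _ _
    obtain ⟨Q, hQ⟩ : ∃ Q : ℝ, Q = K / b ^ K * (2 * K) ^ (β * K) := ⟨_, rfl⟩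
    have hQ0 : 0 < Q := by rw [hQ]; positivity
    refine ⟨β * K + 1, min r₁ (Real.exp (-(max 1 Q))), by
      have := Real.exp_pos (-(max 1 Q))
      positivity, fun r hr hrr => ?_⟩
    have hra : r ≤ r₁ := hrr.trans (min_le_left _ _)
    have hrb : r ≤ Real.exp (-(max 1 Q)) := hrr.trans (min_le_right _ _)
    obtain ⟨x, hx⟩ : ∃ x : ℝ, x = Real.log (1 / r) := ⟨_, rfl⟩
    have hxQ : max 1 Q ≤ x := by
      have h1 := Real.log_le_log hr hrb
      rw [Real.log_exp] at h1
      rw [hx, one_div, Real.log_inv]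
      linarith
    have hx1 : 1 ≤ x := (le_max_left _ _).trans hxQ
    have hxQ' : Q ≤ x := (le_max_right _ _).trans hxQ
    obtain ⟨t, ht⟩ : ∃ t : ℝ, t = b * (2 * K * x) ^ (-β) := ⟨_, rfl⟩
    have hKx : 1 ≤ K * x := by nlinarith
    have hKx2 : 1 ≤ 2 * K * x := by nlinarith
    have hpw : (2 * K * x) ^ (-β) ≤ 1 :=
      Real.rpow_le_one_of_one_le_of_nonpos hKx2 (by linarith)
    have hpw0 : 0 < (2 * K * x) ^ (-β) := Real.rpow_pos_of_pos (by linarith) _
    have ht0 : 0 < t := by rw [ht]; positivity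
    have ht1 : t ≤ 1 := by rw [ht]; nlinarith
    have h1 := main r t hr hra ht0 ht1 (by
      intro j hj
      rw [← hx] at hj
      refine le_trans ?_ (hrec j)
      rw [ht]
      have h2 : (j : ℝ) + 1 ≤ 2 * K * x := by linarith
      have h3 : (2 * K * x) ^ (-β) ≤ ((j : ℝ) + 1) ^ (-β) :=
        Real.rpow_le_rpow_of_nonpos (by positivity) h2 (by linarith)
      gcongr)
    refine h1.mono ?_
    rw [← hx]
    have h2 : t ^ K = b ^ K * (2 * K * x) ^ (-(β * K)) := by
      rw [ht, mul_pow, ← Real.rpow_natCast ((2 * K * x) ^ (-β)), ← Real.rpow_mul (by positivity)]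
      congr 2
      ring
    have h3 : K * r / t ^ K = Q * r * x ^ (β * K) := by
      rw [h2, Real.rpow_neg (by positivity), Real.mul_rpow (by positivity) (by linarith), hQ]
      have e1 : 0 < (2 * (K : ℝ)) ^ (β * K) := by positivity
      have e2 : 0 < x ^ (β * K) := Real.rpow_pos_of_pos (by linarith) _
      field_simp
    rw [h3, Real.rpow_add (by linarith), Real.rpow_one]
    have e2 : 0 < x ^ (β * K) := Real.rpow_pos_of_pos (by linarith) _
    calc Q * r * x ^ (β * K) ≤ x * r * x ^ (β * K) := by gcongr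
      _ = _ := by ring
  · -- in all cases
    intro ε hε
    obtain ⟨e, he⟩ : ∃ e : ℝ, e = ε / (2 * K ^ 2) := ⟨_, rfl⟩
    have he0 : 0 < e := by rw [he]; positivity
    obtain ⟨a, ha, hrec⟩ := h.2.2 e he0
    obtain ⟨b, hb⟩ : ∃ b : ℝ, b = min 1 a := ⟨_, rfl⟩
    have hb0 : 0 < b := by rw [hb]; positivity
    have hb1 : b ≤ 1 := by rw [hb]; exact min_le_left _ _
    have hba : b ≤ a := by rw [hb]; exact min_le_right _ _
    obtain ⟨q, hq, hq1, Q⟩ := Pool.Agent.N253.SM.small_pow (K / b ^ K) (ε / 2) (by positivity)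
    refine ⟨min r₁ q, by positivity, fun r hr hrr => ?_⟩
    have hra : r ≤ r₁ := hrr.trans (min_le_left _ _)
    have hrb : r ≤ q := hrr.trans (min_le_right _ _)
    have hr1 : r < 1 := hrb.trans_lt hq1
    obtain ⟨t, ht⟩ : ∃ t : ℝ, t = b * r ^ (e * K) := ⟨_, rfl⟩
    have hpw0 : 0 < r ^ (e * K) := Real.rpow_pos_of_pos hr _
    have hpw : r ^ (e * K) ≤ 1 := Real.rpow_le_one hr.le hr1.le (by positivity)
    have ht0 : 0 < t := by rw [ht]; positivity
    have ht1 : t ≤ 1 := by rw [ht]; nlinarith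
    have h1 := main r t hr hra ht0 ht1 (by
      intro j hj
      refine le_trans ?_ (hrec j)
      rw [ht]
      have h2 : r ^ (e * K) ≤ Real.exp (-(e * j)) := by
        rw [Real.rpow_def_of_pos hr, Real.exp_le_exp]
        rw [one_div, Real.log_inv] at hj
        have h3 : e * j ≤ e * (K * -Real.log r) := by gcongr
        linarith
      gcongr)
    refine h1.mono ?_
    have h2 : t ^ K = b ^ K * r ^ (ε / 2) := by
      rw [ht, mul_pow, ← Real.rpow_natCast (r ^ (e * K)), ← Real.rpow_mul hr.le]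
      congr 2
      rw [he]
      field_simp
    have h3 := Q r hr hrb
    have h4 : r = r ^ (ε / 2) * (r ^ (ε / 2) * r ^ (1 - ε)) := by
      rw [← Real.rpow_add hr, ← Real.rpow_add hr]
      rw [show ε / 2 + (ε / 2 + (1 - ε)) = 1 by ring, Real.rpow_one]
    have h5 : 0 < r ^ (ε / 2) := Real.rpow_pos_of_pos hr _
    have h6 : 0 < r ^ (1 - ε) := Real.rpow_pos_of_pos hr _
    calc K * r / t ^ K = K / b ^ K * (r / r ^ (ε / 2)) := by rw [h2]; field_simp
      _ = K / b ^ K * (r ^ (ε / 2) * r ^ (1 - ε)) := by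
          congr 1
          rw [div_eq_iff h5.ne']
          nth_rewrite 1 [h4]
          ring
      _ = (K / b ^ K * r ^ (ε / 2)) * r ^ (1 - ε) := by ring
      _ ≤ 1 * r ^ (1 - ε) := by gcongr
      _ = _ := one_mul _

end Pool.Agent.Results.MP_c6f924_an.RecurrenceModulus
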