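import Mathlib
import Pool.Prelude.Def_F_c31e40fa
import Pool.Agent.KS6_34.Fin3
import Pool.Agent.KS6_34.Low3
import Pool.Graph.R_pool_sql_team_seeded_63374d34.N253.LS.All
import Pool.Graph.R_seed8.Y674.CA.Lya
import Pool.Graph.R_seed8.Y298.CA.Typ

/-!
# The sizes of impressions and of hyperbolic components near slowly recurrent Collet-Eckmann parameters

Let `c₀` be a parameter of the Multibrot set `M_d` (`d = 2`: the Mandelbrot set) which satisfies the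
Collet-Eckmann condition, and whose critical orbit `z_j = f^j (c₀)` is slowly recurrent. Put
`E = d / (d - 1)`, which is `2` for the Mandelbrot set. There is `K` such that for all small `R`, if
`|z_j| ≥ t` for all `j ≤ K log (1 / R)` (`t ≤ 1`), then

* every impression which meets the disc `D(c₀, R)` has diameter at most `K R ^ E / t ^ K`;
* so has every connected subset of `M_d` which meets this disc and consists of interior points of `M_d`
  and of parameters which are not semihyperbolic: for example every hyperbolic or queer component;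
* `M_d` is locally connected up to the size `K R ^ E / t ^ K` at all its points in `D(c₀, R)`;
* there is a disc of radius at least `R ^ E t ^ K / K` in `D(c₀, R)` all of whose parameters have an
  attracting cycle.

So at the semihyperbolic parameters (no recurrence; in particular at all Misiurewicz parameters) the
maximal size is comparable to `R ^ E`, and there are no losses: all constants are uniform. It is
`R ^ E` up to powers of `log (1 / R)` if the recurrence is polynomial, for example at the landing point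
of almost every external ray, and it is always `R ^ (E + o(1))`. No Lyapunov exponent is assumed to
exist.

The method. Let `N (R)` be the time up to which the critical orbits of the parameters of the disc of
radius `R` are controlled (`KS6_34.pass`); the derivative `P_N` is `1 / R` up to a power of `t`. Put
`s ^ (d - 1) = K R / t ^ K`. This is the critical scale: an orbit which passes the critical point at a
distance `y` with `s ≤ y` loses the factor `d y ^ (d - 1)`, and gains more than this up to the time when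
it leaves the critical orbit. (a) So the parameters of `M_d` in `D(c₀, R)` whose critical orbit does not
enter the disc of radius `s` are semihyperbolic, and all impressions are trivial at such parameters.
(b) A connected set of parameters of `D(c₀, R)` whose critical orbits enter the disc of radius `s` has
diameter at most `R s`, up to a power of `t`. It is followed backwards, and the displacements at all
the visits of the neighbourhood of the critical point, at all scales between `s` and `R ^ (1 / d)`, are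
summed without an exponential loss (`KS6_34.Orb`). (c) Schottky's theorem gives superattracting
parameters in `D(c₀, R)` whose period is at most `N (R)` plus a multiple of `1 + log (1 / t)`, and a
disc of hyperbolic parameters about them.
-/

set_option autoImplicit false

open MeasureTheory Filter Metric Topology

namespace Pool.Agent.Results.MP_c6f924_an.SharpSizes

open Pool.Agent.H713R2 (IsExteriorMap)

/-- The polynomial `z ^ d + c`. -/
def f (d : ℕ) (c : ℂ) : ℂ → ℂ := fun z => z ^ d + c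

/-- The Collet-Eckmann parameters of the Multibrot set with a slowly recurrent critical orbit:
`|(f^n)' (c₀)| ≥ C lam ^ n` for some `lam > 1`, and `|f^n (c₀)| ≥ C_e exp (- e n)` for every
`e > 0`. -/
def SlowCE (d : ℕ) (c₀ : ℂ) : Prop :=
  c₀ ∈ N62a1eb23.multibrotSet d ∧
  (∃ C lam : ℝ, 0 < C ∧ 1 < lam ∧ ∀ n : ℕ, C * lam ^ n ≤ ‖deriv ((f d c₀)^[n]) c₀‖) ∧
  ∀ e : ℝ, 0 < e → ∃ C : ℝ, 0 < C ∧ ∀ n : ℕ, C * Real.exp (-(e * n)) ≤ ‖(f d c₀)^[n] c₀‖

/-- The parameters as above with a critical orbit which stays away from the critical point. -/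
def Semi (d : ℕ) (c₀ : ℂ) : Prop :=
  SlowCE d c₀ ∧ ∃ t : ℝ, 0 < t ∧ ∀ n : ℕ, t ≤ ‖(f d c₀)^[n] c₀‖

/-- The ray of angle `θ` lands at `c`. -/
def Lands (ψ : ℂ → ℂ) (θ : ℝ) (c : ℂ) : Prop :=
  Tendsto (fun r : ℝ => ψ (r * Complex.exp (θ * Complex.I))) (𝓝[>] 1) (𝓝 c)

/-- The impression of `ζ`: all limits of `ψ (w n)` for sequences `w n → ζ` with `|w n| > 1`. -/
def impression (ψ : ℂ → ℂ) (ζ : ℂ) : Set ℂ := {c | MapClusterPt c (𝓝[{w | 1 < ‖w‖}] ζ) ψ}

/-- Upper bounds for the sizes in the disc of radius `R` about `c₀`. -/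
structure Upper (d : ℕ) (c₀ : ℂ) (ψ : ℂ → ℂ) (R ρ : ℝ) : Prop where
  /-- the impressions which meet the disc -/
  impr : ∀ ζ : ℂ, ‖ζ‖ = 1 → (impression ψ ζ ∩ closedBall c₀ R).Nonempty →
    ∀ c ∈ impression ψ ζ, ∀ c' ∈ impression ψ ζ, ‖c - c'‖ ≤ ρ
  /-- connected sets which meet the disc, and consist of interior points of `M_d` and of parameters
  which are not semihyperbolic -/
  conn : ∀ Γ : Set ℂ, IsPreconnected Γ → (∀ x ∈ Γ, ‖x - c₀‖ < 4 * R →
      x ∈ N62a1eb23.multibrotSet d ∧ (x ∈ interior (N62a1eb23.multibrotSet d) ∨ ¬ Semi d x)) →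
    (Γ ∩ closedBall c₀ R).Nonempty → ∀ c ∈ Γ, ∀ c' ∈ Γ, ‖c - c'‖ ≤ ρ
  /-- local connectivity up to the size `ρ` -/
  loc : ∃ δ : ℝ, 0 < δ ∧ ∀ c ∈ N62a1eb23.multibrotSet d, ‖c - c₀‖ ≤ R →
    ∀ c' ∈ N62a1eb23.multibrotSet d, ‖c' - c‖ ≤ δ → ∃ S : Set ℂ,
      S ⊆ N62a1eb23.multibrotSet d ∧ IsCompact S ∧ IsConnected S ∧ c ∈ S ∧ c' ∈ S ∧
      S ⊆ closedBall c ρ

/-- There is a disc of radius `ρ` in the disc of radius `R` about `c₀` which consists of parameters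
of `M_d` with an attracting cycle. -/
def Lower (d : ℕ) (c₀ : ℂ) (R ρ : ℝ) : Prop :=
  ∃ c' : ℂ, ball c' ρ ⊆ ball c₀ R ∧ ∀ c ∈ ball c' ρ, c ∈ N62a1eb23.multibrotSet d ∧
    ∃ (m : ℕ) (z : ℂ), N62a1eb23.IsAttractingCycle (f d c) m z

/-- The largest size in the disc of radius `R` about `c₀` is between `ρ` and `ρ'`. -/
def Sizes (d : ℕ) (c₀ : ℂ) (ψ : ℂ → ℂ) (R ρ ρ' : ℝ) : Prop :=
  Lower d c₀ R ρ ∧ Upper d c₀ ψ R ρ'

theorem slow {d : ℕ} (hd : 2 ≤ d) {c₀ : ℂ} (h : SlowCE d c₀) : Pool.Agent.N253.LS.Slow d c₀ := by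
  obtain ⟨hM, ⟨C, lam, hC, hlam, H⟩, hrec⟩ := h
  refine ⟨⟨max 1 (1 / C), lam, ⟨hd, ?_, le_max_left _ _, hlam, ?_⟩⟩, ?_⟩
  · intro j
    have h1 := (Pool.Agent.H712R2.mem_multibrot_iff hd c₀).mp hM (j + 1)
    rw [Pool.Agent.Y298.SH.CD.P_succ_eq hd] at h1
    exact h1
  · intro n
    have h1 : C * lam ^ n ≤ Pool.Agent.Y298.SH.CD.Pd d c₀ n := H n
    have h2 : 1 / C ≤ max 1 (1 / C) := le_max_right _ _
    have h3 : 0 < lam ^ n := pow_pos (by linarith) n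
    have h4 : 0 ≤ Pool.Agent.Y298.SH.CD.Pd d c₀ n := Pool.Agent.Y298.SH.CD.Pd_nonneg _ _ _
    calc lam ^ n = 1 / C * (C * lam ^ n) := by field_simp
      _ ≤ max 1 (1 / C) * Pool.Agent.Y298.SH.CD.Pd d c₀ n := by gcongr
  · intro e he
    obtain ⟨C', hC', H'⟩ := hrec e he
    refine ⟨max 1 (1 / C'), le_max_left _ _, fun n => ?_⟩
    have h1 : C' * Real.exp (-(e * n)) ≤ ‖Pool.Agent.Y298.SH.CD.zz d c₀ n‖ := H' n
    have h2 : 1 / C' ≤ max 1 (1 / C') := le_max_right _ _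
    have h3 : Real.exp (e * n) * Real.exp (-(e * n)) = 1 := by
      rw [← Real.exp_add]; simp
    calc (1 : ℝ) = 1 / C' * Real.exp (e * n) * (C' * Real.exp (-(e * n))) := by
          have : 1 / C' * Real.exp (e * n) * (C' * Real.exp (-(e * n))) =
            Real.exp (e * n) * Real.exp (-(e * n)) := by field_simp
          rw [this, h3]
      _ ≤ max 1 (1 / C') * Real.exp (e * n) * ‖Pool.Agent.Y298.SH.CD.zz d c₀ n‖ := by gcongr

theorem slowCE {d : ℕ} {c₀ : ℂ} (hM : c₀ ∈ N62a1eb23.multibrotSet d)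
    (h : Pool.Agent.N253.LS.Slow d c₀) : SlowCE d c₀ := by
  obtain ⟨⟨C₁, lam, hC⟩, hrec⟩ := h
  have hC1 : 0 < C₁ := by linarith [hC.C1]
  refine ⟨hM, ⟨1 / C₁, lam, by positivity, hC.lam1, fun n => ?_⟩, fun e he => ?_⟩
  · have h1 := hC.exp n
    have h2 : lam ^ n / C₁ ≤ Pool.Agent.Y298.SH.CD.Pd d c₀ n := by
      rw [div_le_iff₀ hC1]
      linarith
    calc 1 / C₁ * lam ^ n = lam ^ n / C₁ := by ring
      _ ≤ Pool.Agent.Y298.SH.CD.Pd d c₀ n := h2
      _ = _ := rfl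
  · obtain ⟨C, hC1', H⟩ := hrec e he
    refine ⟨1 / C, by positivity, fun n => ?_⟩
    have h1 := H n
    have h3 : Real.exp (e * n) * Real.exp (-(e * n)) = 1 := by
      rw [← Real.exp_add]; simp
    have h4 : 0 < Real.exp (-(e * n)) := Real.exp_pos _
    have h5 : 0 < C := by linarith
    calc 1 / C * Real.exp (-(e * n)) = 1 / C * Real.exp (-(e * n)) * 1 := (mul_one _).symm
      _ ≤ 1 / C * Real.exp (-(e * n)) *
          (C * Real.exp (e * n) * ‖Pool.Agent.Y298.SH.CD.zz d c₀ n‖) := by gcongr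
      _ = (Real.exp (e * n) * Real.exp (-(e * n))) * ‖Pool.Agent.Y298.SH.CD.zz d c₀ n‖ := by
          field_simp
      _ = ‖Pool.Agent.Y298.SH.CD.zz d c₀ n‖ := by rw [h3, one_mul]
      _ = _ := rfl

theorem semi {d : ℕ} (hd : 2 ≤ d) {c : ℂ} (hM : c ∈ N62a1eb23.multibrotSet d)
    (h : Pool.Agent.N253.LS.Semihyp d c) : Semi d c := by
  obtain ⟨h1, s, hs, h2⟩ := h
  refine ⟨slowCE hM h1, s, hs, fun n => ?_⟩
  have h3 := h2 (n + 1) (by omega)
  rw [Pool.Agent.N253.EC.COMPaux.shift hd] at h3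
  exact h3

theorem Sizes.mono {d : ℕ} {c₀ : ℂ} {ψ : ℂ → ℂ} {R a b a' b' : ℝ} (h : Sizes d c₀ ψ R a b)
    (ha : a' ≤ a) (hb : b ≤ b') : Sizes d c₀ ψ R a' b' := by
  obtain ⟨⟨c', h1, h2⟩, h3, h4, δ, hδ, h5⟩ := h
  refine ⟨⟨c', (ball_subset_ball ha).trans h1, fun c hc => h2 c (ball_subset_ball ha hc)⟩,
    fun ζ h6 h7 c hc c' hc' => (h3 ζ h6 h7 c hc c' hc').trans hb,
    fun Γ h6 h7 h8 c hc c' hc' => (h4 Γ h6 h7 h8 c hc c' hc').trans hb, δ, hδ, ?_⟩
  intro c hc hcR c' hc' hcc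
  obtain ⟨S, s1, s2, s3, s4, s5, s6⟩ := h5 c hc hcR c' hc' hcc
  exact ⟨S, s1, s2, s3, s4, s5, s6.trans (closedBall_subset_closedBall hb)⟩

/-- the main estimate -/
theorem main {d : ℕ} (hd : 2 ≤ d) {ψ : ℂ → ℂ} (hψ : IsExteriorMap (N62a1eb23.multibrotSet d) ψ)
    {c₀ : ℂ} (h : SlowCE d c₀) :
    ∃ (K : ℕ) (R₀ : ℝ), 1 ≤ K ∧ 0 < R₀ ∧ ∀ R t : ℝ, 0 < R → R ≤ R₀ → 0 < t → t ≤ 1 →
      (∀ j : ℕ, (j : ℝ) ≤ K * Real.log (1 / R) → t ≤ ‖(f d c₀)^[j] c₀‖) →
        Sizes d c₀ ψ R (R ^ ((d : ℝ) / (d - 1)) * t ^ K / K)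
          (K * R ^ ((d : ℝ) / (d - 1)) / t ^ K) := by
  obtain ⟨K₁, H1⟩ := Pool.Agent.KS6_34.sets3 hd (slow hd h)
  obtain ⟨K₂, H2⟩ := Pool.Agent.KS6_34.low3 hd (slow hd h)
  obtain ⟨K, hK⟩ : ∃ K : ℕ, K = max 1 (max K₁ K₂) := ⟨_, rfl⟩
  have hK1 : K₁ ≤ K := by rw [hK]; exact (le_max_left _ _).trans (le_max_right _ _)
  have hK2 : K₂ ≤ K := by rw [hK]; exact (le_max_right _ _).trans (le_max_right _ _)
  obtain ⟨R₁, hR₁, H1⟩ := H1 K hK1
  obtain ⟨R₂, hR₂, H2⟩ := H2 K hK2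
  refine ⟨K, min R₁ R₂, by rw [hK]; exact le_max_left _ _, lt_min hR₁ hR₂, ?_⟩
  intro R t hR hRR ht ht1 hrec
  obtain ⟨h1, h2, h3⟩ := H1 R hR (hRR.trans (min_le_left _ _)) t ht ht1 hrec
  obtain ⟨c', η, h4, h5, h6⟩ := H2 R hR (hRR.trans (min_le_right _ _)) t ht ht1 hrec
  have hpos : 0 < K * R ^ ((d : ℝ) / (d - 1)) / t ^ K := by
    have h7 : 0 < R ^ ((d : ℝ) / (d - 1)) := Real.rpow_pos_of_pos hR _
    have h8 : (0 : ℝ) < K := by
      have : 1 ≤ K := by rw [hK]; exact le_max_left _ _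
      exact_mod_cast this
    positivity
  have htri : ∀ c₁ c c' : ℂ, ‖c - c₁‖ ≤ K * R ^ ((d : ℝ) / (d - 1)) / t ^ K / 4 →
      ‖c' - c₁‖ ≤ K * R ^ ((d : ℝ) / (d - 1)) / t ^ K / 4 →
      ‖c - c'‖ ≤ K * R ^ ((d : ℝ) / (d - 1)) / t ^ K := by
    intro c₁ c c' e1 e2
    have e3 := norm_sub_le (c - c₁) (c' - c₁)
    rw [sub_sub_sub_cancel_right] at e3
    linarith
  refine ⟨⟨c', (ball_subset_ball h4).trans h5, fun c hc => h6 c (ball_subset_ball h4 hc)⟩,
    ⟨?_, ?_, h3⟩⟩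
  · rintro ζ hζ ⟨c₁, hc₁, hc₁R⟩ c hc c' hc'
    rw [mem_closedBall, dist_eq_norm] at hc₁R
    exact htri c₁ c c' (h1 ψ hψ ζ hζ c₁ hc₁ (by linarith) c hc)
      (h1 ψ hψ ζ hζ c₁ hc₁ (by linarith) c' hc')
  · rintro Γ hΓ hin ⟨c₁, hc₁, hc₁R⟩ c hc c' hc'
    rw [mem_closedBall, dist_eq_norm] at hc₁R
    have hin' : ∀ x ∈ Γ, ‖x - c₀‖ < 4 * R → x ∈ N62a1eb23.multibrotSet d ∧
        (x ∈ interior (N62a1eb23.multibrotSet d) ∨ ¬ Pool.Agent.N253.LS.Semihyp d x) := by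
      intro x hx hxR
      obtain ⟨h7, h8⟩ := hin x hx hxR
      exact ⟨h7, h8.imp id fun h9 h10 => h9 (semi hd h7 h10)⟩
    exact htri c₁ c c' (h2 Γ hΓ hin' c₁ hc₁ (by linarith) c hc)
      (h2 Γ hΓ hin' c₁ hc₁ (by linarith) c' hc')

/-- polynomial recurrence -/
theorem poly {d : ℕ} (hd : 2 ≤ d) {ψ : ℂ → ℂ} (hψ : IsExteriorMap (N62a1eb23.multibrotSet d) ψ)
    {c₀ : ℂ} (h : SlowCE d c₀) {a β : ℝ} (ha : 0 < a) (hβ : 0 ≤ β)
    (hrec : ∀ j : ℕ, a * ((j : ℝ) + 1) ^ (-β) ≤ ‖(f d c₀)^[j] c₀‖) :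
    ∃ C R₀ : ℝ, 0 < R₀ ∧ ∀ R : ℝ, 0 < R → R ≤ R₀ → Sizes d c₀ ψ R
      (R ^ ((d : ℝ) / (d - 1)) * Real.log (1 / R) ^ (-C))
      (R ^ ((d : ℝ) / (d - 1)) * Real.log (1 / R) ^ C) := by
  obtain ⟨K, r₁, hK1, hr₁, main⟩ := main hd hψ h
  have hKR : (1 : ℝ) ≤ K := by exact_mod_cast hK1
  have hK0 : (0 : ℝ) < K := by linarith
  obtain ⟨b, hb⟩ : ∃ b : ℝ, b = min 1 a := ⟨_, rfl⟩
  have hb0 : 0 < b := by rw [hb]; positivity
  have hb1 : b ≤ 1 := by rw [hb]; exact min_le_left _ _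
  have hba : b ≤ a := by rw [hb]; exact min_le_right _ _
  obtain ⟨Q, hQ⟩ : ∃ Q : ℝ, Q = K / b ^ K * (2 * K) ^ (β * K) := ⟨_, rfl⟩
  have hQ0 : 0 < Q := by rw [hQ]; positivity
  refine ⟨β * K + 1, min r₁ (Real.exp (-(max 1 Q))), by
    have := Real.exp_pos (-(max 1 Q))
    positivity, fun r hr hrr => ?_⟩
  have hra : r ≤ r₁ := hrr.trans (min_le_left _ _)
  have hrb : r ≤ Real.exp (-(max 1 Q)) := hrr.trans (min_le_right _ _)
  obtain ⟨x, hx⟩ : ∃ x : ℝ, x = Real.log (1 / r) := ⟨_, rfl⟩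
  have hxQ : max 1 Q ≤ x := by
    have h1 := Real.log_le_log hr hrb
    rw [Real.log_exp] at h1
    rw [hx, one_div, Real.log_inv]
    linarith
  have hx1 : 1 ≤ x := (le_max_left _ _).trans hxQ
  have hxQ' : Q ≤ x := (le_max_right _ _).trans hxQ
  have hx0 : 0 < x := by linarith
  obtain ⟨t, ht⟩ : ∃ t : ℝ, t = b * (2 * K * x) ^ (-β) := ⟨_, rfl⟩
  have hKx : 1 ≤ K * x := by nlinarith
  have hKx2 : 1 ≤ 2 * K * x := by nlinarith
  have hpw : (2 * K * x) ^ (-β) ≤ 1 :=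
    Real.rpow_le_one_of_one_le_of_nonpos hKx2 (by linarith)
  have hpw0 : 0 < (2 * K * x) ^ (-β) := Real.rpow_pos_of_pos (by linarith) _
  have ht0 : 0 < t := by rw [ht]; positivity
  have ht1 : t ≤ 1 := by rw [ht]; nlinarith
  have h1 := main r t hr hra ht0 ht1 (by
    intro j hj
    rw [← hx] at hj
    refine le_trans ?_ (hrec j)
    rw [ht]
    have h2 : (j : ℝ) + 1 ≤ 2 * K * x := by linarith
    have h3 : (2 * K * x) ^ (-β) ≤ ((j : ℝ) + 1) ^ (-β) :=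
      Real.rpow_le_rpow_of_nonpos (by positivity) h2 (by linarith)
    gcongr)
  obtain ⟨Z, hZ⟩ : ∃ Z : ℝ, Z = r ^ ((d : ℝ) / (d - 1)) := ⟨_, rfl⟩
  have hZ0 : 0 < Z := by rw [hZ]; exact Real.rpow_pos_of_pos hr _
  rw [← hZ] at h1 ⊢
  have e2 : 0 < x ^ (β * K) := Real.rpow_pos_of_pos (by linarith) _
  have e1 : 0 < (2 * (K : ℝ)) ^ (β * K) := by positivity
  have h2 : t ^ K = b ^ K * (2 * K * x) ^ (-(β * K)) := by
    rw [ht, mul_pow, ← Real.rpow_natCast ((2 * K * x) ^ (-β)), ← Real.rpow_mul (by positivity)]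
    congr 2
    ring
  have h3 : K / t ^ K = Q * x ^ (β * K) := by
    rw [h2, Real.rpow_neg (by positivity), Real.mul_rpow (by positivity) (by linarith), hQ]
    field_simp
  have h4 : K / t ^ K ≤ x ^ (β * K + 1) := by
    rw [h3, Real.rpow_add (by linarith), Real.rpow_one]
    calc Q * x ^ (β * K) ≤ x * x ^ (β * K) := by gcongr
      _ = _ := by ring
  have h5 : 0 < t ^ K := by positivity
  rw [← hx]
  refine h1.mono ?_ ?_
  · rw [Real.rpow_neg hx0.le]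
    have h6 : (x ^ (β * K + 1))⁻¹ ≤ (K / t ^ K)⁻¹ := inv_anti₀ (by positivity) h4
    rw [inv_div] at h6
    calc Z * (x ^ (β * K + 1))⁻¹ ≤ Z * (t ^ K / K) := by gcongr
      _ = _ := by ring
  · calc K * Z / t ^ K = Z * (K / t ^ K) := by ring
      _ ≤ _ := by gcongr

/-- **The sizes of impressions and of hyperbolic components near slowly recurrent Collet-Eckmann
parameters.** -/
theorem result (d : ℕ) (hd : 2 ≤ d) :
    (∃ ψ : ℂ → ℂ, IsExteriorMap (N62a1eb23.multibrotSet d) ψ) ∧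
    ∀ ψ : ℂ → ℂ, IsExteriorMap (N62a1eb23.multibrotSet d) ψ →
      (∀ c₀ : ℂ, SlowCE d c₀ →
        -- the sizes in terms of the closest returns of the critical orbit
        (∃ (K : ℕ) (R₀ : ℝ), 1 ≤ K ∧ 0 < R₀ ∧ ∀ R t : ℝ, 0 < R → R ≤ R₀ → 0 < t → t ≤ 1 →
          (∀ j : ℕ, (j : ℝ) ≤ K * Real.log (1 / R) → t ≤ ‖(f d c₀)^[j] c₀‖) →
            Sizes d c₀ ψ R (R ^ ((d : ℝ) / (d - 1)) * t ^ K / K)
              (K * R ^ ((d : ℝ) / (d - 1)) / t ^ K)) ∧
        -- no recurrence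
        (∀ t : ℝ, 0 < t → (∀ j : ℕ, t ≤ ‖(f d c₀)^[j] c₀‖) →
          ∃ C R₀ : ℝ, 1 ≤ C ∧ 0 < R₀ ∧ ∀ R : ℝ, 0 < R → R ≤ R₀ →
            Sizes d c₀ ψ R (R ^ ((d : ℝ) / (d - 1)) / C) (C * R ^ ((d : ℝ) / (d - 1)))) ∧
        -- polynomial recurrence
        (∀ a β : ℝ, 0 < a → 0 ≤ β → (∀ j : ℕ, a * ((j : ℝ) + 1) ^ (-β) ≤ ‖(f d c₀)^[j] c₀‖) →
          ∃ C R₀ : ℝ, 0 < R₀ ∧ ∀ R : ℝ, 0 < R → R ≤ R₀ → Sizes d c₀ ψ R
            (R ^ ((d : ℝ) / (d - 1)) * Real.log (1 / R) ^ (-C))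
            (R ^ ((d : ℝ) / (d - 1)) * Real.log (1 / R) ^ C)) ∧
        -- in all cases
        ∀ ε : ℝ, 0 < ε → ∃ R₀ : ℝ, 0 < R₀ ∧ ∀ R : ℝ, 0 < R → R ≤ R₀ →
          Sizes d c₀ ψ R (R ^ ((d : ℝ) / (d - 1) + ε)) (R ^ ((d : ℝ) / (d - 1) - ε))) ∧
      -- almost every external ray lands at such a parameter, with polynomial recurrence
      ∀ᵐ θ : ℝ, ∃ c₀ ∈ frontier (N62a1eb23.multibrotSet d), Lands ψ θ c₀ ∧ SlowCE d c₀ ∧
        ∃ C R₀ : ℝ, 0 < R₀ ∧ ∀ R : ℝ, 0 < R → R ≤ R₀ → Sizes d c₀ ψ R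
          (R ^ ((d : ℝ) / (d - 1)) * Real.log (1 / R) ^ (-C))
          (R ^ ((d : ℝ) / (d - 1)) * Real.log (1 / R) ^ C) := by
  obtain ⟨β₀, hβ₀⟩ := Pool.Agent.H713R2.exists_beta (d := d) hd
  refine ⟨⟨_, Pool.Agent.H713R2.exteriorMap_of_beta hβ₀⟩, ?_⟩
  intro ψ hψ
  refine ⟨fun c₀ h => ⟨main hd hψ h, ?_, fun a β ha hβ hrec => poly hd hψ h ha hβ hrec, ?_⟩, ?_⟩
  · -- no recurrence
    intro t ht hrec
    obtain ⟨K, R₀, hK1, hR₀, H⟩ := main hd hψ h
    have hKR : (1 : ℝ) ≤ K := by exact_mod_cast hK1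
    obtain ⟨u, hu⟩ : ∃ u : ℝ, u = (min 1 t) ^ K := ⟨_, rfl⟩
    have hu0 : 0 < u := by rw [hu]; positivity
    have hu1 : u ≤ 1 := by
      rw [hu]
      exact pow_le_one₀ (by positivity) (min_le_left _ _)
    refine ⟨K / u, R₀, ?_, hR₀, fun R hR hRR => ?_⟩
    · rw [le_div_iff₀ hu0]
      linarith
    have h1 := H R (min 1 t) hR hRR (by positivity) (min_le_left _ _)
      (fun j _ => (min_le_right _ _).trans (hrec j))
    rw [← hu] at h1
    refine h1.mono (le_of_eq ?_) (le_of_eq ?_)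
    · rw [div_div_eq_mul_div]
    · ring
  · -- in all cases
    intro ε hε
    obtain ⟨K, r₁, hK1, hr₁, main⟩ := main hd hψ h
    have hKR : (1 : ℝ) ≤ K := by exact_mod_cast hK1
    have hK0 : (0 : ℝ) < K := by linarith
    obtain ⟨e, he⟩ : ∃ e : ℝ, e = ε / (2 * K ^ 2) := ⟨_, rfl⟩
    have he0 : 0 < e := by rw [he]; positivity
    obtain ⟨a, ha, hrec⟩ := h.2.2 e he0
    obtain ⟨b, hb⟩ : ∃ b : ℝ, b = min 1 a := ⟨_, rfl⟩
    have hb0 : 0 < b := by rw [hb]; positivity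
    have hb1 : b ≤ 1 := by rw [hb]; exact min_le_left _ _
    have hba : b ≤ a := by rw [hb]; exact min_le_right _ _
    obtain ⟨q, hq, hq1, Q⟩ := Pool.Agent.N253.SM.small_pow (K / b ^ K) (ε / 2) (by positivity)
    refine ⟨min r₁ q, by positivity, fun r hr hrr => ?_⟩
    have hra : r ≤ r₁ := hrr.trans (min_le_left _ _)
    have hrb : r ≤ q := hrr.trans (min_le_right _ _)
    have hr1 : r < 1 := hrb.trans_lt hq1
    obtain ⟨t, ht⟩ : ∃ t : ℝ, t = b * r ^ (e * K) := ⟨_, rfl⟩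
    have hpw0 : 0 < r ^ (e * K) := Real.rpow_pos_of_pos hr _
    have hpw : r ^ (e * K) ≤ 1 := Real.rpow_le_one hr.le hr1.le (by positivity)
    have ht0 : 0 < t := by rw [ht]; positivity
    have ht1 : t ≤ 1 := by rw [ht]; nlinarith
    have h1 := main r t hr hra ht0 ht1 (by
      intro j hj
      refine le_trans ?_ (hrec j)
      rw [ht]
      have h2 : r ^ (e * K) ≤ Real.exp (-(e * j)) := by
        rw [Real.rpow_def_of_pos hr, Real.exp_le_exp]
        rw [one_div, Real.log_inv] at hj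
        have h3 : e * j ≤ e * (K * -Real.log r) := by gcongr
        linarith
      gcongr)
    have h2 : t ^ K = b ^ K * r ^ (ε / 2) := by
      rw [ht, mul_pow, ← Real.rpow_natCast (r ^ (e * K)), ← Real.rpow_mul hr.le]
      congr 2
      rw [he]
      field_simp
    have h3 := Q r hr hrb
    have h5 : 0 < r ^ (ε / 2) := Real.rpow_pos_of_pos hr _
    have hεε : r ^ ε = r ^ (ε / 2) * r ^ (ε / 2) := by
      rw [← Real.rpow_add hr, add_halves]
    have hε0 : 0 < r ^ ε := Real.rpow_pos_of_pos hr _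
    have htK : 0 < t ^ K := by positivity
    have h6 : K / t ^ K ≤ (r ^ ε)⁻¹ := by
      rw [h2, hεε]
      calc K / (b ^ K * r ^ (ε / 2)) = K / b ^ K * r ^ (ε / 2) / (r ^ (ε / 2) * r ^ (ε / 2)) := by
            field_simp
        _ ≤ 1 / (r ^ (ε / 2) * r ^ (ε / 2)) := by gcongr
        _ = _ := one_div _
    have hZ0 : 0 < r ^ ((d : ℝ) / (d - 1)) := Real.rpow_pos_of_pos hr _
    refine h1.mono ?_ ?_
    · rw [Real.rpow_add hr]
      have h7 : r ^ ε ≤ t ^ K / K := by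
        have h8 := inv_anti₀ (by positivity) h6
        rw [inv_inv, inv_div] at h8
        exact h8
      calc r ^ ((d : ℝ) / (d - 1)) * r ^ ε ≤ r ^ ((d : ℝ) / (d - 1)) * (t ^ K / K) := by gcongr
        _ = _ := by ring
    · rw [Real.rpow_sub hr]
      calc K * r ^ ((d : ℝ) / (d - 1)) / t ^ K = r ^ ((d : ℝ) / (d - 1)) * (K / t ^ K) := by ring
        _ ≤ r ^ ((d : ℝ) / (d - 1)) * (r ^ ε)⁻¹ := by gcongr
        _ = _ := (div_eq_mul_inv _ _).symm
  · -- almost every ray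
    filter_upwards [Pool.Agent.Y272.TY.ae_neg' (Pool.Agent.Y272.TY.typical_all hd hβ₀)] with θ hθ
    obtain ⟨c₀, A, R, h⟩ := hθ
    have hL := Pool.Agent.Y298.CA.lyap_of_typ hd hβ₀ h
    obtain ⟨⟨C₁, lam, hC⟩, hlya⟩ := Pool.Agent.Y674.CA.lya d (Real.log d) c₀ hd hL
    have hSl : Pool.Agent.N253.LS.Slow d c₀ := by
      refine ⟨⟨C₁, lam, hC⟩, fun e he => ?_⟩
      obtain ⟨C, hC1, H⟩ := hlya e he
      exact ⟨C, hC1, fun n => (H n).2.2⟩
    have hCE := slowCE hL.2.1 hSl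
    refine ⟨c₀, h.frontier hd hβ₀, h.tendsto_psi hβ₀ hψ, hCE, ?_⟩
    refine poly hd hψ hCE (a := (2 : ℝ) ^ (-A)) (β := A) (by positivity) h.A0 (fun j => ?_)
    have h1 := h.rec' j
    rw [Pool.Agent.Y298.SH.CD.P_succ_eq hd] at h1
    refine le_trans ?_ h1
    have hj : (0 : ℝ) ≤ j := Nat.cast_nonneg j
    rw [← Real.mul_rpow (by norm_num) (by positivity)]
    have h2 : Real.exp (-(A * Real.log ((j : ℝ) + 2))) = ((j : ℝ) + 2) ^ (-A) := by
      rw [Real.rpow_def_of_pos (by positivity)]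
      congr 1
      ring
    rw [h2]
    exact Real.rpow_le_rpow_of_nonpos (by positivity) (by linarith) (by linarith [h.A0])

end Pool.Agent.Results.MP_c6f924_an.SharpSizes
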