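import Pool.Agent.KS6_23.ML.ALL2

set_option autoImplicit false

/-!
# The inverse of the multiplier map of a hyperbolic component of period `n` is univalent on discs of
radius `κ ‖t‖ ^ 2 / n`, and these discs contain the `p/q`-limbs
-/

open Complex Set Filter Metric Topology N62a1eb23

namespace Pool.Agent.Results.MP_c6f924_an.UnivalentExtension

/-- the quadratic polynomial `z ^ 2 + c` -/
def f (c z : ℂ) : ℂ := z ^ 2 + c

/-- the distance of a real number to the next integer -/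
noncomputable def dZ (t : ℝ) : ℝ := |t - round t|

/-- the disc with the centre `2 π i t` and the radius `κ ‖t‖ ^ 2 / n`, together with the half strip
to the left of it -/
def Dom (κ : ℝ) (n : ℕ) (t : ℝ) : Set ℂ :=
  {s : ℂ | ∃ τ : ℝ, 0 ≤ τ ∧ s + τ ∈ ball (2 * Real.pi * I * t) (κ * dZ t ^ 2 / n)}

/-- `c₁` is a parameter for which `z₁` has the period `n` and the multiplier `exp (2 π i t)`, and
`B` is a part of `M` which is cut off by `c₁`: it is open and closed in `M \ {c₁}`, and it does not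
contain the parameters near `c₁` for which the cycle near `z₁` is attracting -/
structure Limb (n : ℕ) (t : ℝ) (c₁ z₁ : ℂ) (B : Set ℂ) : Prop where
  fix : (f c₁)^[n] z₁ = z₁
  mlt : deriv ((f c₁)^[n]) z₁ = exp (2 * Real.pi * I * t)
  sub : B ⊆ mandelbrotSet \ {c₁}
  opn : ∃ O : Set ℂ, IsOpen O ∧ B = O ∩ (mandelbrotSet \ {c₁})
  cls : ∃ K : Set ℂ, IsClosed K ∧ B = K ∩ (mandelbrotSet \ {c₁})
  att : ∃ δ : ℝ, 0 < δ ∧ ∀ c z : ℂ, ‖c - c₁‖ < δ → ‖z - z₁‖ < δ → (f c)^[n] z = z →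
    ‖deriv ((f c)^[n]) z‖ < 1 → c ∉ B

theorem result : ∃ κ C : ℝ, 0 < κ ∧ 0 < C ∧ ∀ (n : ℕ) (t : ℝ) (c₁ z₁ : ℂ), 1 ≤ n → dZ t ≠ 0 →
    (f c₁)^[n] z₁ = z₁ → deriv ((f c₁)^[n]) z₁ = exp (2 * Real.pi * I * t) →
    ∃ ψ ζ : ℂ → ℂ, DifferentiableOn ℂ ψ (Dom κ n t) ∧ DifferentiableOn ℂ ζ (Dom κ n t) ∧
      InjOn ψ (Dom κ n t) ∧ ψ (2 * Real.pi * I * t) = c₁ ∧ ζ (2 * Real.pi * I * t) = z₁ ∧
      (∀ s ∈ Dom κ n t, (f (ψ s))^[n] (ζ s) = ζ s ∧ deriv ((f (ψ s))^[n]) (ζ s) = exp s) ∧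
      ∀ (p : ℤ) (q : ℕ) (B : Set ℂ), 1 ≤ q → IsCoprime p (q : ℤ) → t = p / q →
        C * n ^ 2 ≤ q * dZ t ^ 2 → Limb n t c₁ z₁ B → ∀ c ∈ B,
          (∃ s ∈ Dom κ n t, ‖s - 2 * Real.pi * I * t‖ ≤ 2 * n * Real.log 2 / q ∧ ψ s = c) ∧
          ‖c - c₁‖ ≤ C * n ^ 2 / (q * dZ t ^ 2) * ‖ψ (2 * Real.pi * I * t - 1) - c₁‖ := by
  obtain ⟨κ₀, h0, h1, hexl⟩ := KS6_23.ML.ALL2.exl
  obtain ⟨κ₁, h2, huni⟩ := KS6_23.ML.ALL2.uni
  obtain ⟨κ₂, h3, hlimb⟩ := KS6_23.ML.ALL2.limb2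
  set κ : ℝ := min κ₀ (min κ₁ κ₂) with hκ
  have hκ0 : 0 < κ := lt_min h0 (lt_min h2 h3)
  have hκa : κ ≤ κ₀ := min_le_left _ _
  have hκb : κ ≤ κ₁ := (min_le_right _ _).trans (min_le_left _ _)
  have hκc : κ ≤ κ₂ := (min_le_right _ _).trans (min_le_right _ _)
  have hlog : Real.log 2 < 1 := by
    have := Real.log_two_lt_d9
    linarith
  have hlog0 : 0 < Real.log 2 := Real.log_pos (by norm_num)
  refine ⟨κ, 480 / κ, hκ0, by positivity, ?_⟩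
  intro n t c₁ z₁ hn ht hf hm
  have hn0 : (0 : ℝ) < n := by exact_mod_cast hn
  have hdpos : 0 < KS6_23.ML.dZ t := lt_of_le_of_ne (abs_nonneg _) (Ne.symm ht)
  obtain ⟨ψ, ζ, hP0⟩ := hexl n t hn ht c₁ z₁ hf hm
  have hP := KS6_23.ML.REL.PSI_mono hκa hP0
  have hinj : InjOn ψ (KS6_23.ML.DL κ n t) :=
    (huni κ n t c₁ z₁ ψ ζ hκ0 hκb hn ht hP).1
  refine ⟨ψ, ζ, hP.dψ, hP.dζ, hinj, hP.ψ0, hP.ζ0, fun s hs => (hP.mem s hs).2, ?_⟩
  intro p q B hq hco htpq hbig hL c hc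
  have hq0 : (0 : ℝ) < q := by exact_mod_cast hq
  subst htpq
  set t : ℝ := p / q with ht'
  set r : ℝ := κ * KS6_23.ML.dZ t ^ 2 / n with hr
  have hrpos : 0 < r := by positivity
  have hbig' : 480 / κ * (n : ℝ) ^ 2 ≤ q * KS6_23.ML.dZ t ^ 2 := hbig
  have hbig2 : 480 * (n : ℝ) / q ≤ r := by
    rw [hr, div_le_div_iff₀ hq0 hn0]
    rw [div_mul_eq_mul_div, div_le_iff₀ hκ0] at hbig'
    linarith
  have hsmall : 4 * n * Real.log 2 / q < r := by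
    refine lt_of_lt_of_le ?_ hbig2
    rw [div_lt_div_iff_of_pos_right hq0]
    nlinarith
  have hL' : KS6_23.ML.Limb n t c₁ z₁ B :=
    { fix := hL.fix, mlt := hL.mlt, sub := hL.sub, opn := hL.opn, cls := hL.cls, att := hL.att }
  obtain ⟨s, hs1, hs2⟩ := hlimb κ n q p c₁ z₁ ψ ζ B hκ0 hκc hn hq hco ht hP hL' hsmall c hc
  -- the disc
  set s₀ : ℂ := KS6_23.ML.tpi * ((t : ℝ) : ℂ) with hs₀
  have hs1' : ‖s - s₀‖ ≤ 2 * n * Real.log 2 / q := hs1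
  have hsr : ‖s - s₀‖ ≤ r / 2 := by
    refine hs1'.trans ?_
    have : 2 * n * Real.log 2 / q = (4 * n * Real.log 2 / q) / 2 := by ring
    rw [this]
    linarith
  have hball : ball s₀ r ⊆ KS6_23.ML.DL κ n t := KS6_23.ML.UNIA.DD_sub
  have hsD : s ∈ KS6_23.ML.DL κ n t := hball (by rw [mem_ball, dist_eq_norm]; linarith)
  refine ⟨⟨s, hsD, hs1', hs2⟩, ?_⟩
  obtain ⟨k1, k2, k3⟩ := KS6_23.ML.KOB.kob ψ s₀ r hrpos (hP.dψ.mono hball) (hinj.mono hball)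
  have hψ0 : ψ s₀ = c₁ := hP.ψ0
  have hone : s₀ - 1 ∈ KS6_23.ML.DL κ n t := by
    refine ⟨1, zero_le_one, ?_⟩
    have : s₀ - 1 + ((1 : ℝ) : ℂ) = s₀ := by push_cast; ring
    rw [this]
    exact mem_ball_self hrpos
  have hr1 : r ≤ 1 := by
    have e1 : KS6_23.ML.dZ t ≤ 1 / 2 := abs_sub_round t
    have e2 : KS6_23.ML.dZ t ^ 2 ≤ 1 := by nlinarith
    have e3 : κ ≤ 1 := by linarith
    have e4 : (1 : ℝ) ≤ n := by exact_mod_cast hn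
    rw [hr, div_le_one hn0]
    nlinarith
  have hfar : r * ‖deriv ψ s₀‖ / 4 ≤ ‖ψ (s₀ - 1) - c₁‖ := by
    by_contra hcon
    push Not at hcon
    obtain ⟨w, hw1, hw2⟩ := k3 (show ψ (s₀ - 1) ∈ ball (ψ s₀) (r * ‖deriv ψ s₀‖ / 4) by
      rw [mem_ball, dist_eq_norm, hψ0]; exact hcon)
    have hw3 := hinj (hball hw1) hone hw2
    rw [hw3, mem_ball, dist_eq_norm] at hw1
    have : ‖s₀ - 1 - s₀‖ = 1 := by
      rw [show s₀ - 1 - s₀ = -1 by ring, norm_neg, norm_one]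
    linarith
  have hgo : ‖c - c₁‖ ≤ 480 / κ * n ^ 2 / (q * KS6_23.ML.dZ t ^ 2) * ‖ψ (s₀ - 1) - c₁‖ := by
    rw [← hs2, ← hψ0]
    refine (k2 s hsr).trans ?_
    rw [hψ0]
    have e1 : ‖deriv ψ s₀‖ ≤ 4 / r * ‖ψ (s₀ - 1) - c₁‖ := by
      rw [div_mul_eq_mul_div, le_div_iff₀ hrpos]
      linarith
    have e2 : 60 * ‖s - s₀‖ ≤ 60 * (2 * n / q) := by
      have : 2 * n * Real.log 2 / q ≤ 2 * n / q := by
        rw [div_le_div_iff_of_pos_right hq0]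
        nlinarith
      linarith
    calc 60 * ‖s - s₀‖ * ‖deriv ψ s₀‖ ≤ 60 * (2 * n / q) * (4 / r * ‖ψ (s₀ - 1) - c₁‖) := by
          gcongr
      _ = 480 / κ * n ^ 2 / (q * KS6_23.ML.dZ t ^ 2) * ‖ψ (s₀ - 1) - c₁‖ := by
          rw [hr]
          field_simp
          ring
  exact hgo

end Pool.Agent.Results.MP_c6f924_an.UnivalentExtension
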